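import Mathlib

/-!
# Irreducibility of `b ^ p X ^ q ± 1` for `1 ≤ q < p`, `p` prime and `b` not a perfect power
-/

set_option autoImplicit false
set_option maxHeartbeats 4000000

namespace Pool.Agent.N449.SG

open Polynomial IntermediateField

theorem irr_step {K : Type*} [Field K] {a : K} {m r : ℕ} (hm0 : 0 < m)
    (hm : Irreducible (X ^ m - C a)) (hr : r.Prime)
    (h : ∀ c : K, c ^ r ≠ (-1) ^ m * (-a)) : Irreducible (X ^ (r * m) - C a) := by
  refine X_pow_mul_sub_C_irreducible hm ?_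
  intro E _ _ x hx
  have hint : IsIntegral K x := not_not.mp fun h ↦ by
    simpa only [degree_zero, degree_X_pow_sub_C hm0,
      WithBot.natCast_ne_bot] using congr_arg degree (hx.symm.trans (dif_neg h))
  refine X_pow_sub_C_irreducible_of_prime hr ?_
  intro y hy
  refine h (Algebra.norm K y) ?_
  rw [← map_pow, hy, ← adjoin.powerBasis_gen hint,
    Algebra.PowerBasis.norm_gen_eq_coeff_zero_minpoly]
  simp [minpoly_gen, hx, hm0.ne]

/-- `X ^ q - a` is irreducible over `ℚ` if `|a|` is not an `r`-th power for any prime `r ∣ q`. -/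
theorem irr_abs (a : ℚ) (ha : a ≠ 0) : ∀ q : ℕ, 0 < q →
    (∀ r : ℕ, r.Prime → r ∣ q → ∀ c : ℚ, c ^ r ≠ |a|) → Irreducible (X ^ q - C a : ℚ[X]) := by
  intro q
  induction q using Nat.strong_induction_on with
  | _ q ih =>
    intro hq h
    by_cases hq1 : q = 1
    · subst hq1
      rw [pow_one]
      exact irreducible_X_sub_C a
    set r := q.minFac with hr
    have hrp : r.Prime := Nat.minFac_prime hq1
    obtain ⟨m, hm⟩ := Nat.minFac_dvd q
    rw [← hr] at hm
    have hm0 : 0 < m := by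
      rcases Nat.eq_zero_or_pos m with h0 | h0
      · rw [h0] at hm; omega
      · exact h0
    have hmq : m < q := by
      rw [hm]
      exact (Nat.lt_mul_iff_one_lt_left hm0).2 hrp.one_lt
    have hirr := ih m hmq hm0 (fun s hs hsm => h s hs (hm ▸ Dvd.dvd.mul_left hsm r))
    have key : Irreducible (X ^ (r * m) - C a : ℚ[X]) := by
      refine irr_step hm0 hirr hrp ?_
      intro c hc
      refine h r hrp (hm ▸ Dvd.intro _ rfl) |c| ?_
      rw [← abs_pow, hc, abs_mul, abs_pow]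
      simp
    rw [hm]
    exact key

/-- A rational `r`-th root of `b ^ p`, `gcd(p, r) = 1`, gives an `r`-th root of `b`. -/
theorem root_of_root (b p r : ℕ) (hb : 2 ≤ b) (hcop : Nat.Coprime p r) (hr : 0 < r) (c : ℚ)
    (h : c ^ r = (b : ℚ) ^ p) : ∃ k : ℕ, k ^ r = b := by
  have hb0 : (b : ℚ) ≠ 0 := by positivity
  have hc0 : c ≠ 0 := by
    rintro rfl
    rw [zero_pow hr.ne'] at h
    exact pow_ne_zero p hb0 h.symm
  have hbez : (1 : ℤ) = p * Nat.gcdA p r + r * Nat.gcdB p r := by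
    have := Nat.gcd_eq_gcd_ab p r
    rw [hcop] at this
    exact_mod_cast this
  set w : ℚ := c ^ (Nat.gcdA p r) * (b : ℚ) ^ (Nat.gcdB p r) with hw
  have hwr : w ^ r = b := by
    rw [hw, mul_pow, ← zpow_natCast, ← zpow_natCast, ← zpow_mul, ← zpow_mul,
      mul_comm (Nat.gcdA p r), zpow_mul, zpow_natCast, h, ← zpow_natCast, ← zpow_mul,
      ← zpow_add₀ hb0, mul_comm (Nat.gcdB p r), ← hbez, zpow_one]
  have hint : IsIntegral ℤ (w ^ r) := by
    rw [hwr]
    have : (b : ℚ) = algebraMap ℤ ℚ (b : ℤ) := by simp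
    rw [this]
    exact isIntegral_algebraMap
  obtain ⟨y, hy⟩ := IsIntegrallyClosed.exists_algebraMap_eq_of_isIntegral_pow hr hint
  refine ⟨y.natAbs, ?_⟩
  have h1 : (y : ℚ) ^ r = b := by
    rw [← hwr, ← hy]
    simp
  have h2 : y ^ r = (b : ℤ) := by exact_mod_cast h1
  have h3 : (y ^ r).natAbs = b := by rw [h2]; simp
  rwa [Int.natAbs_pow] at h3

/-- `b ^ p X ^ q + ε`, `ε = ± 1`, is irreducible over `ℚ` for `0 < q < p`, `p` prime and `b` not a
perfect power. -/
theorem irr (b : ℕ) (hb : 2 ≤ b) (hpow : ∀ k r : ℕ, 2 ≤ r → k ^ r ≠ b) (p : ℕ) (hp : p.Prime)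
    (q : ℕ) (hq : 0 < q) (hqp : q < p) (ε : ℤ) (hε : ε = 1 ∨ ε = -1) :
    Irreducible (C ((b : ℚ) ^ p) * X ^ q + C (ε : ℚ) : ℚ[X]) := by
  have hb0 : (b : ℚ) ≠ 0 := by positivity
  have hbp : (b : ℚ) ^ p ≠ 0 := pow_ne_zero _ hb0
  set a : ℚ := -(ε : ℚ) * ((b : ℚ) ^ p)⁻¹ with ha
  have hε1 : |(ε : ℚ)| = 1 := by
    rcases hε with h | h <;> rw [h] <;> simp
  have hε0 : (ε : ℚ) ≠ 0 := by
    intro h
    rw [h] at hε1
    simp at hε1
  have ha0 : a ≠ 0 := mul_ne_zero (neg_ne_zero.2 hε0) (inv_ne_zero hbp)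
  have habs : |a| = ((b : ℚ) ^ p)⁻¹ := by
    rw [ha, abs_mul, abs_neg, hε1, one_mul, abs_of_pos (by positivity)]
  have h : Irreducible (X ^ q - C a : ℚ[X]) := by
    refine irr_abs a ha0 q hq ?_
    intro r hr hrq c hc
    rw [habs] at hc
    have h1 : (c⁻¹) ^ r = (b : ℚ) ^ p := by rw [inv_pow, hc, inv_inv]
    have hcop : Nat.Coprime p r := by
      rw [Nat.coprime_primes hp hr]
      have := Nat.le_of_dvd hq hrq
      omega
    obtain ⟨k, hk⟩ := root_of_root b p r hb hcop hr.pos _ h1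
    exact hpow k r hr.two_le hk
  have e : (C ((b : ℚ) ^ p) * X ^ q + C (ε : ℚ) : ℚ[X]) = C ((b : ℚ) ^ p) * (X ^ q - C a) := by
    rw [mul_sub, ← C_mul]
    have : (b : ℚ) ^ p * a = -ε := by
      rw [ha]; field_simp
    rw [this]
    simp
  rw [e]
  have hu : IsUnit (C ((b : ℚ) ^ p) : ℚ[X]) := by
    rw [isUnit_C]
    exact isUnit_iff_ne_zero.2 hbp
  exact (irreducible_isUnit_mul hu).2 h

end Pool.Agent.N449.SG
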